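import Mathlib
import Pool.Agent.Helper58.FX.Defs

/-! Project FX (MP_81910f_an), piece FX-27: finitely many ergodic lifts. -/

set_option autoImplicit false
open MeasureTheory Filter Topology Helper17.LevelSets
open scoped ComplexConjugate ENNReal

namespace Helper94.FX

open Helper58.FX

/-! ### averages of a character -/

/-- average of `fourier (n * 2 ^ i * 3 ^ j)` over the box -/
noncomputable def av (n : ℤ) (L : ℕ) (x : Tor) : ℂ :=
  (1 / (L : ℂ) ^ 2) * ∑ p : Fin L × Fin L, (fourier (n * uu p) x : ℂ)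

lemma continuous_av (n : ℤ) (L : ℕ) : Continuous (av n L) := by
  unfold av
  exact continuous_const.mul (continuous_finsetSum _ (fun p _ => (fourier (n * uu p)).continuous))

lemma ft_mul {ν : Measure Tor} {k : ℕ} (h : MeasurePreserving (T k) ν ν) (n : ℤ) :
    ft ν (n * k) = ft ν n := by
  unfold ft
  have h1 : ∫ x, (fourier n x : ℂ) ∂ν = ∫ x, (fourier n (T k x) : ℂ) ∂ν := by
    conv_lhs => rw [← h.map_eq]
    rw [integral_map h.measurable.aemeasurable]
    exact (fourier n).continuous.aestronglyMeasurable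
  rw [h1]
  congr 1
  funext x
  have h2 : T k x = (k : ℤ) • x := by
    show (k : ℕ) • x = (k : ℤ) • x
    rw [natCast_zsmul]
  rw [h2, Helper91.TTT.fourier_zsmul]

lemma ft_uu {ν : Measure Tor} (h2 : MeasurePreserving (T 2) ν ν)
    (h3 : MeasurePreserving (T 3) ν ν) (n : ℤ) (i j : ℕ) :
    ft ν (n * (2 ^ i * 3 ^ j)) = ft ν n := by
  induction j with
  | zero =>
    induction i with
    | zero => simp
    | succ i ih =>
      have e : n * (2 ^ (i + 1) * 3 ^ 0) = (n * (2 ^ i * 3 ^ 0)) * ((2 : ℕ) : ℤ) := by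
        push_cast; ring
      rw [e, ft_mul h2, ih]
  | succ j ih =>
    have e : n * (2 ^ i * 3 ^ (j + 1)) = (n * (2 ^ i * 3 ^ j)) * ((3 : ℕ) : ℤ) := by
      push_cast; ring
    rw [e, ft_mul h3, ih]

lemma int_fourier (ν : Measure Tor) [IsFiniteMeasure ν] (n : ℤ) :
    Integrable (fun x => (fourier n x : ℂ)) ν :=
  Helper17.TranslM.integrable_cont ν (fourier n).continuous

lemma conj_fourier (n : ℤ) (x : Tor) : conj (fourier n x : ℂ) = fourier (-n) x :=
  (fourier_neg (T := 1)).symm

lemma int_av {ν : Measure Tor} [IsFiniteMeasure ν] (h2 : MeasurePreserving (T 2) ν ν)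
    (h3 : MeasurePreserving (T 3) ν ν) (n : ℤ) {L : ℕ} (hL : 0 < L) :
    ∫ x, av n L x ∂ν = ft ν n := by
  unfold av
  rw [integral_const_mul, integral_finsetSum _ (fun p _ => int_fourier ν _)]
  have h : ∀ p : Fin L × Fin L, ∫ x, (fourier (n * uu p) x : ℂ) ∂ν = ft ν n := fun p =>
    ft_uu h2 h3 n p.1 p.2
  rw [Finset.sum_congr rfl (fun p _ => h p), Finset.sum_const, Finset.card_univ,
    Fintype.card_prod, Fintype.card_fin, nsmul_eq_mul]
  have : (L : ℂ) ≠ 0 := by exact_mod_cast hL.ne'
  push_cast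
  field_simp

lemma av_mul_conj (n : ℤ) (L : ℕ) (x : Tor) :
    av n L x * conj (av n L x) = (1 / (L : ℂ) ^ 4) *
      ∑ q : (Fin L × Fin L) × (Fin L × Fin L), (fourier (n * (uu q.1 - uu q.2)) x : ℂ) := by
  have e : conj (av n L x) = (1 / (L : ℂ) ^ 2) *
      ∑ p : Fin L × Fin L, (fourier (-(n * uu p)) x : ℂ) := by
    unfold av
    rw [map_mul]
    congr 1
    · simp
    · rw [map_sum]
      exact Finset.sum_congr rfl (fun p _ => conj_fourier _ _)
  rw [e]
  unfold av
  rw [mul_mul_mul_comm, Finset.sum_mul_sum]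
  congr 1
  · ring
  conv_rhs => rw [Fintype.sum_prod_type]
  apply Finset.sum_congr rfl
  intro p _
  apply Finset.sum_congr rfl
  intro p' _
  rw [← fourier_add]
  have e2 : n * uu p + -(n * uu p') = n * (uu p - uu p') := by ring
  rw [e2]

lemma int_av_sq (ν : Measure Tor) [IsFiniteMeasure ν] (n : ℤ) (L : ℕ) :
    ∫ x, av n L x * conj (av n L x) ∂ν = EE (fun j => ft ν (n * j)) L := by
  have h : (fun x => av n L x * conj (av n L x)) = fun x => (1 / (L : ℂ) ^ 4) *
      ∑ q : (Fin L × Fin L) × (Fin L × Fin L), (fourier (n * (uu q.1 - uu q.2)) x : ℂ) :=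
    funext (av_mul_conj n L)
  rw [h, integral_const_mul, integral_finsetSum _ (fun p _ => int_fourier ν _)]
  rfl

/-- the square error -/
noncomputable def err (n : ℤ) (c : ℂ) (L : ℕ) (x : Tor) : ℝ := ‖av n L x - c‖ ^ 2

lemma continuous_err (n : ℤ) (c : ℂ) (L : ℕ) : Continuous (err n c L) :=
  ((continuous_av n L).sub continuous_const).norm.pow 2

lemma int_err {ν : Measure Tor} [IsProbabilityMeasure ν] (h2 : MeasurePreserving (T 2) ν ν)
    (h3 : MeasurePreserving (T 3) ν ν) (n : ℤ) {L : ℕ} (hL : 0 < L) :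
    ((∫ x, err n (ft ν n) L x ∂ν : ℝ) : ℂ) =
      EE (fun j => ft ν (n * j)) L - ((‖ft ν n‖ ^ 2 : ℝ) : ℂ) := by
  set c := ft ν n with hc
  have h1 : ∀ x, ((err n c L x : ℝ) : ℂ) = av n L x * conj (av n L x) - c * conj (av n L x) -
      conj c * av n L x + c * conj c := by
    intro x
    unfold err
    have : ((‖av n L x - c‖ ^ 2 : ℝ) : ℂ) = (av n L x - c) * conj (av n L x - c) := by
      rw [Complex.mul_conj, Complex.normSq_eq_norm_sq]
    rw [this, map_sub]; ring
  have iav : Integrable (av n L) ν := Helper17.TranslM.integrable_cont ν (continuous_av n L)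
  have icav : Integrable (fun x => conj (av n L x)) ν :=
    Helper17.TranslM.integrable_cont ν (Complex.continuous_conj.comp (continuous_av n L))
  have isq : Integrable (fun x => av n L x * conj (av n L x)) ν :=
    Helper17.TranslM.integrable_cont ν
      ((continuous_av n L).mul (Complex.continuous_conj.comp (continuous_av n L)))
  rw [← integral_complex_ofReal, integral_congr_ae (Filter.Eventually.of_forall h1),
    integral_add, integral_sub, integral_sub, integral_const_mul, integral_const_mul, integral_conj,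
    int_av h2 h3 n hL, int_av_sq, integral_const, ← hc]
  · simp only [probReal_univ, one_smul]
    have : ((‖c‖ ^ 2 : ℝ) : ℂ) = c * conj c := by
      rw [Complex.mul_conj, Complex.normSq_eq_norm_sq]
    rw [this]; ring
  · exact isq
  · exact icav.const_mul _
  · exact isq.sub (icav.const_mul _)
  · exact iav.const_mul _
  · exact (isq.sub (icav.const_mul _)).sub (iav.const_mul _)
  · exact integrable_const _

lemma tendsto_err {ν : Measure Tor} [IsProbabilityMeasure ν] (h2 : MeasurePreserving (T 2) ν ν)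
    (h3 : MeasurePreserving (T 3) ν ν) (hE : Erg (ft ν)) (n : ℤ) :
    Tendsto (fun L => ∫ x, err n (ft ν n) L x ∂ν) atTop (𝓝 0) := by
  have h1 : Tendsto (fun L => EE (fun j => ft ν (n * j)) L - ((‖ft ν n‖ ^ 2 : ℝ) : ℂ)) atTop
      (𝓝 0) := by
    have := (hE n).sub_const ((‖ft ν n‖ ^ 2 : ℝ) : ℂ)
    rwa [sub_self] at this
  have h3' : Tendsto (fun L => ((∫ x, err n (ft ν n) L x ∂ν : ℝ) : ℂ)) atTop (𝓝 ((0 : ℝ) : ℂ)) := by
    rw [Complex.ofReal_zero]
    refine h1.congr' ?_
    filter_upwards [eventually_gt_atTop 0] with L hL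
    rw [int_err h2 h3 n hL]
  have h4 := (Complex.continuous_re.tendsto _).comp h3'
  exact h4

lemma exists_subseq {ν : Measure Tor} [IsProbabilityMeasure ν] (h2 : MeasurePreserving (T 2) ν ν)
    (h3 : MeasurePreserving (T 3) ν ν) (hE : Erg (ft ν)) (n : ℤ) {σ : ℕ → ℕ}
    (hσ : Tendsto σ atTop atTop) :
    ∃ τ : ℕ → ℕ, StrictMono τ ∧
      ∀ᵐ x ∂ν, Tendsto (fun i => av n (σ (τ i)) x) atTop (𝓝 (ft ν n)) := by
  have hm : TendstoInMeasure ν (fun i => err n (ft ν n) (σ i)) atTop (fun _ => (0 : ℝ)) := by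
    apply tendstoInMeasure_of_tendsto_eLpNorm (p := 1) one_ne_zero
    · intro i; exact (continuous_err _ _ _).aestronglyMeasurable
    · exact aestronglyMeasurable_const
    · have h0 : ∀ i, eLpNorm (err n (ft ν n) (σ i) - fun _ => (0 : ℝ)) 1 ν =
          ENNReal.ofReal (∫ x, err n (ft ν n) (σ i) x ∂ν) := by
        intro i
        have e1 : (err n (ft ν n) (σ i) - fun _ => (0 : ℝ)) = err n (ft ν n) (σ i) := by
          funext x; simp
        rw [e1, eLpNorm_one_eq_lintegral_enorm, ofReal_integral_eq_lintegral_ofReal]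
        · refine lintegral_congr (fun x => ?_)
          rw [Real.enorm_eq_ofReal (by unfold err; positivity)]
        · exact Helper17.TranslM.integrable_cont ν (continuous_err _ _ _)
        · exact Filter.Eventually.of_forall (fun x => by
            show (0 : ℝ) ≤ err n (ft ν n) (σ i) x
            unfold err; positivity)
      simp only [h0]
      have := ENNReal.tendsto_ofReal ((tendsto_err h2 h3 hE n).comp hσ)
      rwa [ENNReal.ofReal_zero] at this
  obtain ⟨τ, hτ, hae⟩ := hm.exists_seq_tendsto_ae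
  refine ⟨τ, hτ, ?_⟩
  filter_upwards [hae] with x hx
  rw [tendsto_iff_norm_sub_tendsto_zero]
  have h4 : Tendsto (fun i => Real.sqrt (err n (ft ν n) (σ (τ i)) x)) atTop (𝓝 (Real.sqrt 0)) :=
    (Real.continuous_sqrt.tendsto 0).comp hx
  rw [Real.sqrt_zero] at h4
  refine h4.congr (fun i => ?_)
  unfold err
  rw [Real.sqrt_sq (norm_nonneg _)]

/-- different ergodic measures are mutually singular -/
lemma singular {ν ν' : Measure Tor} [IsProbabilityMeasure ν] [IsProbabilityMeasure ν']
    (h2 : MeasurePreserving (T 2) ν ν) (h3 : MeasurePreserving (T 3) ν ν) (hE : Erg (ft ν))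
    (h2' : MeasurePreserving (T 2) ν' ν') (h3' : MeasurePreserving (T 3) ν' ν')
    (hE' : Erg (ft ν')) (hne : ft ν ≠ ft ν') : Measure.MutuallySingular ν ν' := by
  obtain ⟨n, hn⟩ := Function.ne_iff.1 hne
  obtain ⟨τ, hτ, h1⟩ := exists_subseq h2 h3 hE n (σ := id) tendsto_id
  obtain ⟨τ', hτ', h1'⟩ := exists_subseq h2' h3' hE' n (σ := τ) hτ.tendsto_atTop
  refine Measure.MutuallySingular.mk (s := {x | ¬ Tendsto (fun i => av n (τ (τ' i)) x) atTop
    (𝓝 (ft ν n))}) (t := {x | ¬ Tendsto (fun i => av n (τ (τ' i)) x) atTop (𝓝 (ft ν' n))}) ?_ ?_ ?_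
  · have : ∀ᵐ x ∂ν, Tendsto (fun i => av n (τ (τ' i)) x) atTop (𝓝 (ft ν n)) := by
      filter_upwards [h1] with x hx
      exact hx.comp hτ'.tendsto_atTop
    exact ae_iff.1 this
  · exact ae_iff.1 h1'
  · intro x _
    by_contra hcon
    rw [Set.mem_union, not_or] at hcon
    have ha : Tendsto (fun i => av n (τ (τ' i)) x) atTop (𝓝 (ft ν n)) := not_not.1 hcon.1
    have hb : Tendsto (fun i => av n (τ (τ' i)) x) atTop (𝓝 (ft ν' n)) := not_not.1 hcon.2
    exact hn (tendsto_nhds_unique ha hb)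

/-! ### the dominating measure -/

/-- the sum of the translates by multiples of `1 / m` -/
noncomputable def Lam (m : ℕ) (ν : Measure Tor) : Measure Tor :=
  ∑ j ∈ Finset.range m, ν.map (fun x => x + (((j : ℝ) / m : ℝ) : Tor))

lemma meas_add (y : Tor) : Measurable (fun x : Tor => x + y) := measurable_add_const y

lemma Lam_univ (m : ℕ) (ν : Measure Tor) [IsProbabilityMeasure ν] : Lam m ν Set.univ = m := by
  unfold Lam
  rw [Measure.finsetSum_apply]
  have : ∀ j ∈ Finset.range m, (ν.map (fun x => x + (((j : ℝ) / m : ℝ) : Tor))) Set.univ = 1 := by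
    intro j _
    rw [Measure.map_apply (meas_add _) MeasurableSet.univ, Set.preimage_univ, measure_univ]
  rw [Finset.sum_congr rfl this]
  simp

instance instFinLam (m : ℕ) (ν : Measure Tor) [IsProbabilityMeasure ν] :
    IsFiniteMeasure (Lam m ν) := ⟨by rw [Lam_univ]; exact ENNReal.natCast_lt_top m⟩

lemma le_Lam {m : ℕ} (hm : 1 ≤ m) (ν : Measure Tor) : ν ≤ Lam m ν := by
  obtain ⟨k, rfl⟩ : ∃ k, m = k + 1 := ⟨m - 1, by omega⟩
  unfold Lam
  rw [Finset.sum_range_succ']
  have : ν.map (fun x : Tor => x + ((((0 : ℕ) : ℝ) / ((k + 1 : ℕ) : ℝ) : ℝ) : Tor)) = ν := by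
    simp
  rw [this]
  exact Measure.le_add_left le_rfl

lemma fourier_add_point (n : ℤ) (x y : Tor) :
    (fourier n (x + y) : ℂ) = fourier n x * fourier n y := by
  simp only [fourier_apply, smul_add, AddCircle.toCircle_add, Circle.coe_mul]

lemma ft_Lam (m : ℕ) (ν : Measure Tor) [IsProbabilityMeasure ν] (n : ℤ) :
    ∫ x, (fourier n x : ℂ) ∂(Lam m ν) =
      (∑ j ∈ Finset.range m, (fourier n (((j : ℝ) / m : ℝ) : Tor) : ℂ)) * ft ν n := by
  have hp : ∀ j, IsProbabilityMeasure (ν.map (fun x => x + (((j : ℝ) / m : ℝ) : Tor))) :=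
    fun j => Measure.isProbabilityMeasure_map (meas_add _).aemeasurable
  unfold Lam
  rw [integral_finsetSum_measure (fun j _ => by
    exact int_fourier _ n), Finset.sum_mul]
  refine Finset.sum_congr rfl (fun j _ => ?_)
  rw [integral_map (meas_add _).aemeasurable (fourier n).continuous.aestronglyMeasurable]
  simp only [fourier_add_point]
  rw [integral_mul_const, mul_comm]
  rfl

lemma sum_fourier_zero {m : ℕ} (hm : 1 ≤ m) {n : ℤ} (hn : ¬ (m : ℤ) ∣ n) :
    ∑ j ∈ Finset.range m, (fourier n (((j : ℝ) / m : ℝ) : Tor) : ℂ) = 0 := by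
  have hm0 : (m : ℂ) ≠ 0 := by exact_mod_cast (by omega : m ≠ 0)
  set ζ : ℂ := Complex.exp (2 * Real.pi * Complex.I * n / m) with hζ
  have h1 : ∀ j : ℕ, (fourier n (((j : ℝ) / m : ℝ) : Tor) : ℂ) = ζ ^ j := by
    intro j
    rw [fourier_coe_apply, hζ, ← Complex.exp_nat_mul]
    congr 1
    push_cast
    field_simp
  simp only [h1]
  have h2 : ζ ^ m = 1 := by
    rw [hζ, ← Complex.exp_nat_mul, Complex.exp_eq_one_iff]
    exact ⟨n, by field_simp⟩
  have h3 : ζ ≠ 1 := by
    intro h
    rw [hζ, Complex.exp_eq_one_iff] at h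
    obtain ⟨k, hk⟩ := h
    apply hn
    refine ⟨k, ?_⟩
    have hpi : (2 * Real.pi * Complex.I : ℂ) ≠ 0 := by
      simp [Real.pi_ne_zero]
    have h4 : (n : ℂ) = m * k := by
      have h5 : (2 * Real.pi * Complex.I : ℂ) * n = (2 * Real.pi * Complex.I) * (m * k) := by
        field_simp at hk
        linear_combination (2 * Real.pi * Complex.I : ℂ) * hk
      exact mul_left_cancel₀ hpi h5
    exact_mod_cast h4
  have h4 : (∑ j ∈ Finset.range m, ζ ^ j) * (ζ - 1) = 0 := by
    rw [geom_sum_mul, h2, sub_self]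
  exact (mul_eq_zero.1 h4).resolve_right (sub_ne_zero.2 h3)

lemma Lam_eq {m : ℕ} (hm : 1 ≤ m) {ν ν' : Measure Tor} [IsProbabilityMeasure ν]
    [IsProbabilityMeasure ν'] (h : ∀ n : ℤ, ft ν (m * n) = ft ν' (m * n)) :
    Lam m ν = Lam m ν' := by
  apply Helper91.TTT.measure_unique
  intro n
  rw [ft_Lam, ft_Lam]
  by_cases hn : (m : ℤ) ∣ n
  · obtain ⟨k, rfl⟩ := hn
    rw [h k]
  · rw [sum_fourier_zero hm hn, zero_mul, zero_mul]

lemma add_le_of_singular {μ ν lam : Measure Tor} (h : Measure.MutuallySingular μ ν)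
    (h1 : μ ≤ lam) (h2 : ν ≤ lam) : μ + ν ≤ lam := by
  obtain ⟨s, hs, hμ, hν⟩ := h
  rw [Measure.le_iff]
  intro t ht
  have z1 : μ (t ∩ s) = 0 := measure_mono_null Set.inter_subset_right hμ
  have z2 : ν (t \ s) = 0 := measure_mono_null (fun x hx => hx.2) hν
  have e1 : μ t = μ (t \ s) := by
    rw [← measure_inter_add_sdiff t hs, z1, zero_add]
  have e2 : ν t = ν (t ∩ s) := by
    rw [← measure_inter_add_sdiff t hs, z2, add_zero]
  rw [Measure.add_apply, e1, e2, ← measure_inter_add_sdiff t hs, add_comm]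
  exact add_le_add (h2 _) (h1 _)

lemma sum_le_of_singular {ι : Type*} (F : Finset ι) (N : ι → Measure Tor) (lam : Measure Tor)
    (hs : ∀ i ∈ F, ∀ j ∈ F, i ≠ j → Measure.MutuallySingular (N i) (N j))
    (hl : ∀ i ∈ F, N i ≤ lam) : ∑ i ∈ F, N i ≤ lam := by
  classical
  induction F using Finset.induction_on with
  | empty => rw [Finset.sum_empty]; exact Measure.zero_le _
  | insert a F ha ih =>
    rw [Finset.sum_insert ha]
    apply add_le_of_singular
    · have : ∀ G : Finset ι, G ⊆ F → Measure.MutuallySingular (N a) (∑ i ∈ G, N i) := by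
        intro G
        induction G using Finset.induction_on with
        | empty => intro _; rw [Finset.sum_empty]; exact Measure.MutuallySingular.zero_right
        | insert b G hb ihG =>
          intro hG
          rw [Finset.sum_insert hb]
          refine Measure.MutuallySingular.add_right ?_ (ihG (fun i hi => hG (Finset.mem_insert_of_mem hi)))
          have hbF : b ∈ F := hG (Finset.mem_insert_self _ _)
          exact hs a (Finset.mem_insert_self _ _) b (Finset.mem_insert_of_mem hbF)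
            (fun e => ha (e ▸ hbF))
      exact this F subset_rfl
    · exact hl a (Finset.mem_insert_self _ _)
    · exact ih (fun i hi j hj => hs i (Finset.mem_insert_of_mem hi) j (Finset.mem_insert_of_mem hj))
        (fun i hi => hl i (Finset.mem_insert_of_mem hi))

/-- FX-27 -/
theorem finite_to_one {q : ℤ → ℂ} {m : ℕ} (hm : 1 ≤ m) :
    {p : ℤ → ℂ | ExLike p ∧ dil p m = q}.Finite := by
  classical
  by_contra hinf
  obtain ⟨F, hF, hcard⟩ := Set.Infinite.exists_subset_card_eq hinf (m + 1)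
  have hrep : ∀ p : ℤ → ℂ, ∃ ν : Measure Tor, p ∈ F → IsProbabilityMeasure ν ∧ ft ν = p ∧
      MeasurePreserving (T 2) ν ν ∧ MeasurePreserving (T 3) ν ν := by
    intro p
    by_cases hp : p ∈ F
    · obtain ⟨ν, h1, h2, h3, h4, -⟩ := (hF hp).1.rep
      exact ⟨ν, fun _ => ⟨h1, funext h2, h3, h4⟩⟩
    · exact ⟨0, fun h => absurd h hp⟩
  choose N hN using hrep
  have hne : F.Nonempty := by
    rw [← Finset.card_pos, hcard]; omega
  obtain ⟨p0, hp0⟩ := hne
  have := (hN p0 hp0).1
  have hle : ∑ p ∈ F, N p ≤ Lam m (N p0) := by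
    apply sum_le_of_singular
    · intro p hp p' hp' hpp
      have i1 := (hN p hp).1
      have i2 := (hN p' hp').1
      have e1 := (hN p hp).2.1
      have e2 := (hN p' hp').2.1
      refine singular (hN p hp).2.2.1 (hN p hp).2.2.2 ?_ (hN p' hp').2.2.1 (hN p' hp').2.2.2 ?_ ?_
      · rw [e1]; exact (hF hp).1.erg
      · rw [e2]; exact (hF hp').1.erg
      · rw [e1, e2]; exact hpp
    · intro p hp
      have i1 := (hN p hp).1
      have e : Lam m (N p) = Lam m (N p0) := by
        apply Lam_eq hm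
        intro n
        rw [(hN p hp).2.1, (hN p0 hp0).2.1]
        have a1 := congrFun (hF hp).2 n
        have a2 := congrFun (hF hp0).2 n
        unfold dil at a1 a2
        rw [a1, a2]
      rw [← e]
      exact le_Lam hm _
  have h1 : (∑ p ∈ F, N p) Set.univ = ((m + 1 : ℕ) : ℝ≥0∞) := by
    rw [Measure.finsetSum_apply]
    have : ∀ p ∈ F, (N p) Set.univ = 1 := fun p hp => by
      have := (hN p hp).1
      exact measure_univ
    rw [Finset.sum_congr rfl this, Finset.sum_const, hcard]
    simp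
  have h2 := hle Set.univ
  rw [h1, Lam_univ] at h2
  have h3 : m + 1 ≤ m := by exact_mod_cast h2
  omega

end Helper94.FX
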